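import Pool.Agent.helper56.P2B.SpecP

set_option autoImplicit false

open Complex Metric Set Filter Topology MeasureTheory
open Pool.Agent.helper98.ILF
open WP (it)
open HY (UD T S hd UN RM)
open PM
open PL (TP LO PZ GJ INR PG DK ht tr DI CY SUBH hG hq BJ)
open P2 (SS FLS FL CLS FR TL)

noncomputable section

namespace P2B

theorem CRC (hTDF : TDF_stmt) (hTPM : TPM_stmt) (hKO3 : V3.KO3_stmt) (hTKO : TKO_stmt) : CRC_stmt := by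
  obtain ⟨K1, hK1, h1, -⟩ := hTKO
  obtain ⟨C, hC, h3⟩ := hKO3 (1 / 2) (by norm_num) (by norm_num)
  have hK1' : 0 < K1 := by linarith
  refine ⟨4 * K1 * (2 * C + 1), by nlinarith, ?_⟩
  intro Ω hD h0 hcr ζ hζ
  have hbig : 4 * K1 ≤ 4 * K1 * (2 * C + 1) := by nlinarith
  have hb1 : ‖ζ‖ ≤ 1 / (4 * K1) := hζ.trans (one_div_le_one_div_of_le (by linarith) hbig)
  have hK1z : K1 * ‖ζ‖ ≤ 1 / 4 := by
    calc K1 * ‖ζ‖ ≤ K1 * (1 / (4 * K1)) := mul_le_mul_of_nonneg_left hb1 hK1'.le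
      _ = 1 / 4 := by field_simp
  have hlt : ‖ζ - 0‖ < cr Ω 0 / K1 := by
    rw [sub_zero, hcr, lt_div_iff₀ hK1', mul_comm]
    linarith
  obtain ⟨-, -, h1c⟩ := h1 Ω hD 0 h0
  obtain ⟨hζΩ, hpd⟩ := h1c ζ hlt
  rw [sub_zero, hcr, div_one] at hpd
  refine ⟨hζΩ, ?_⟩
  obtain ⟨-, -, hT⟩ := hTDF Ω hD
  obtain ⟨hRM, -, -, -, -, hT6, -⟩ := hT 0 h0
  obtain ⟨hu, hφu, hpu, -, -, -⟩ := hT6 ζ hζΩ
  set u := cx Ω 0 ζ with hudef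
  set φ := rm Ω 0 with hφdef
  have hun : ‖u‖ ≤ K1 * ‖ζ‖ := by rw [← hpu]; exact hpd
  have hun4 : ‖u‖ ≤ 1 / 4 := hun.trans hK1z
  obtain ⟨-, hcrφ⟩ := hTPM Ω 0 φ hRM
  obtain ⟨hc1, -⟩ := hcrφ u hu
  rw [hφu] at hc1
  have hdif : DifferentiableOn ℂ φ (ball 0 1) := hRM.dif
  have hinj : InjOn φ (ball 0 1) := hRM.inj
  obtain ⟨-, h4⟩ := h3 φ 0 1 one_pos hdif hinj
  have hub : u ∈ ball (0 : ℂ) ((1 - 1 / 2) * 1) := by
    rw [mem_ball_zero_iff]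
    linarith
  obtain ⟨-, -, -, h5⟩ := h4 u hub
  have hd0 : ‖deriv φ 0‖ = 1 := hcr
  rw [sub_zero, div_one, hd0, mul_one] at h5
  have hd : |‖deriv φ u‖ - 1| ≤ C * ‖u‖ := by
    rw [← hd0]
    exact (abs_norm_sub_norm_le _ _).trans h5
  rw [hc1]
  have hu0 : 0 ≤ ‖u‖ := norm_nonneg u
  obtain ⟨hd1, hd2⟩ := abs_le.1 hd
  have hCu : C * ‖u‖ ≤ C := by nlinarith
  have hfin : |‖deriv φ u‖ * (1 - ‖u‖ ^ 2) - 1| ≤ (2 * C + 1) * ‖u‖ := by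
    have hdn : 0 ≤ ‖deriv φ u‖ := norm_nonneg _
    rw [abs_le]
    constructor
    · nlinarith [mul_nonneg hdn hu0, mul_nonneg hu0 hu0, mul_nonneg (mul_nonneg hdn hu0) hu0]
    · nlinarith [mul_nonneg hdn (mul_nonneg hu0 hu0)]
  refine hfin.trans ?_
  calc (2 * C + 1) * ‖u‖ ≤ (2 * C + 1) * (K1 * ‖ζ‖) := mul_le_mul_of_nonneg_left hun (by linarith)
    _ ≤ 4 * K1 * (2 * C + 1) * ‖ζ‖ := by
      have : 0 ≤ K1 * (2 * C + 1) * ‖ζ‖ := by positivity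
      nlinarith

end P2B

end
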